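import Pool.Agent.Helper84.OV.Zero

/-!
# Packet OV-LD3: a vanishing 3 x 3 Wronskian
-/

set_option autoImplicit false

namespace Pool.Agent.Helper92.OV.LD3

open Pool.Agent.Helper84.OV

theorem dd_mul (x y : PowerSeries ℚ) : dd (x * y) = x * dd y + dd x * y := by
  change PowerSeries.derivative ℚ (x * y) = _
  rw [Derivation.leibniz]
  simp only [smul_eq_mul]
  ring

theorem dd_C (c : ℚ) : dd (PowerSeries.C c) = 0 := by
  change PowerSeries.derivative ℚ (PowerSeries.C c) = 0
  have h : (PowerSeries.C c : PowerSeries ℚ) = algebraMap ℚ (PowerSeries ℚ) c := rfl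
  rw [h, Derivation.map_algebraMap]

theorem dd_sub (x y : PowerSeries ℚ) : dd (x - y) = dd x - dd y := by
  change PowerSeries.derivative ℚ (x - y) = _
  rw [map_sub]

theorem t : S_LD3 := by
  intro h2 f hw
  by_cases h0 : f 0 = 0
  · refine ⟨![1, 0, 0], fun h => ?_, ?_⟩
    · have := congrFun h 0
      simp at this
    · simp [Fin.sum_univ_three, h0]
  set a := f 0 * dd (f 1) - dd (f 0) * f 1 with ha
  set b := f 0 * dd (f 2) - dd (f 0) * f 2 with hb
  have hda : dd a = f 0 * dd (dd (f 1)) - dd (dd (f 0)) * f 1 := by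
    rw [ha, dd_sub, dd_mul, dd_mul]
    ring
  have hdb : dd b = f 0 * dd (dd (f 2)) - dd (dd (f 0)) * f 2 := by
    rw [hb, dd_sub, dd_mul, dd_mul]
    ring
  have hid : a * dd b - dd a * b = 0 := by
    have h1 : a * dd b - dd a * b =
        f 0 * w3 f (fun i => dd (f i)) (fun i => dd (dd (f i))) := by
      rw [hda, hdb, ha, hb]
      unfold w3
      ring
    rw [h1, hw, mul_zero]
  by_cases ha0 : a = 0
  · obtain ⟨c, hc⟩ := h2 (f 1) (f 0) h0 (by
      have h1 : f 0 * dd (f 1) - dd (f 0) * f 1 = 0 := ha0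
      linear_combination -h1)
    refine ⟨![c, -1, 0], fun h => ?_, ?_⟩
    · have := congrFun h 1
      simp at this
    · simp only [Fin.sum_univ_three, Matrix.cons_val_zero, Matrix.cons_val_one, Matrix.cons_val]
      rw [hc]
      simp
  · obtain ⟨c, hc⟩ := h2 b a ha0 (by linear_combination -hid)
    have h3 : dd (f 2 - PowerSeries.C c * f 1) = dd (f 2) - PowerSeries.C c * dd (f 1) := by
      rw [dd_sub, dd_mul, dd_C]
      ring
    obtain ⟨c', hc'⟩ := h2 (f 2 - PowerSeries.C c * f 1) (f 0) h0 (by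
      rw [h3]
      have h1 : f 0 * dd (f 2) - dd (f 0) * f 2 =
          PowerSeries.C c * (f 0 * dd (f 1) - dd (f 0) * f 1) := hc
      linear_combination -h1)
    refine ⟨![-c', -c, 1], fun h => ?_, ?_⟩
    · have := congrFun h 2
      simp at this
    · simp only [Fin.sum_univ_three, Matrix.cons_val_zero, Matrix.cons_val_one, Matrix.cons_val,
        map_neg, map_one]
      linear_combination hc'

end Pool.Agent.Helper92.OV.LD3
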